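import Mathlib

/-!
# Binary covering codes of radius one with density tending to one, for all lengths

(Kabatyanskii and Panchenko.) Helper file.
-/

set_option autoImplicit false

open Finset

namespace Pool.Agent.H43.Cover

/-- flip one coordinate -/
def flip {ι : Type} [DecidableEq ι] (x : ι → Bool) (i : ι) : ι → Bool := Function.update x i (!(x i))

lemma flip_self {ι : Type} [DecidableEq ι] (x : ι → Bool) (i : ι) : flip x i i = !(x i) := by
  simp [flip]

lemma flip_of_ne {ι : Type} [DecidableEq ι] (x : ι → Bool) {i j : ι} (h : j ≠ i) :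
    flip x i j = x j := by
  simp [flip, h]

/-- covering codes of radius one -/
def Covers {ι : Type} [DecidableEq ι] (C : Set (ι → Bool)) : Prop :=
  ∀ x, x ∈ C ∨ ∃ i, flip x i ∈ C

/-- there is a covering code of length `n` and density at most `c` -/
def Good (n : ℕ) (c : ℝ) : Prop :=
  ∃ C : Finset (Fin n → Bool), Covers (C : Set (Fin n → Bool)) ∧
    ((n : ℝ) + 1) * C.card ≤ c * 2 ^ n

lemma Good.mono {n : ℕ} {c c' : ℝ} (h : Good n c) (hc : c ≤ c') : Good n c' := by
  obtain ⟨C, h1, h2⟩ := h
  exact ⟨C, h1, h2.trans (by gcongr)⟩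

/-- transport from an arbitrary index type -/
lemma good_of_type {ι : Type} [Fintype ι] [DecidableEq ι] (C : Finset (ι → Bool))
    (hC : Covers (C : Set (ι → Bool))) (c : ℝ)
    (h : ((Fintype.card ι : ℝ) + 1) * C.card ≤ c * 2 ^ (Fintype.card ι)) :
    Good (Fintype.card ι) c := by
  classical
  let e := Fintype.equivFin ι
  let E : (ι → Bool) ≃ (Fin (Fintype.card ι) → Bool) := Equiv.arrowCongr e (Equiv.refl Bool)
  refine ⟨C.map E.toEmbedding, ?_, ?_⟩
  · intro x
    rcases hC (E.symm x) with h1 | ⟨i, hi⟩
    · left
      rw [Finset.coe_map]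
      exact ⟨E.symm x, h1, by simp⟩
    · right
      refine ⟨e i, ?_⟩
      rw [Finset.coe_map]
      refine ⟨_, hi, ?_⟩
      funext j
      by_cases hj : j = e i
      · subst hj
        simp [E, flip, Equiv.arrowCongr]
      · have hj' : e.symm j ≠ i := by
          intro h
          apply hj
          rw [← h]; simp
        simp [E, flip, Equiv.arrowCongr, hj, hj']
  · rw [Finset.card_map]
    exact h

/-- adding free coordinates -/
lemma Good.extend {n : ℕ} {c : ℝ} (h : Good n c) (k : ℕ) :
    Good (n + k) (c * ((n + k : ℝ) + 1) / (n + 1)) := by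
  classical
  obtain ⟨C, h1, h2⟩ := h
  let E : (Fin n ⊕ Fin k → Bool) ≃ (Fin n → Bool) × (Fin k → Bool) :=
    Equiv.sumArrowEquivProdArrow _ _ _
  let D : Finset (Fin n ⊕ Fin k → Bool) := (C ×ˢ (univ : Finset (Fin k → Bool))).map E.symm.toEmbedding
  have hD : ∀ x, x ∈ D ↔ (fun i => x (Sum.inl i)) ∈ C := by
    intro x
    simp only [D, Finset.mem_map, Finset.mem_product, Finset.mem_univ, and_true,
      Equiv.coe_toEmbedding]
    constructor
    · rintro ⟨p, hp, rfl⟩
      exact hp
    · intro hx
      exact ⟨E x, hx, by simp⟩
  have hcard : D.card = C.card * 2 ^ k := by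
    simp [D]
  have key := good_of_type D (by
    intro x
    rcases h1 (fun i => x (Sum.inl i)) with h | ⟨i, hi⟩
    · left
      exact (hD x).2 h
    · right
      refine ⟨Sum.inl i, ?_⟩
      have : flip x (Sum.inl i) ∈ D := by
        rw [hD]
        have e : (fun j => flip x (Sum.inl i) (Sum.inl j)) = flip (fun j => x (Sum.inl j)) i := by
          funext j
          by_cases hj : j = i
          · subst hj; simp [flip]
          · rw [flip_of_ne _ (by simpa using hj), flip_of_ne _ hj]
        rw [e]
        exact hi
      exact this) (c * ((n + k : ℝ) + 1) / (n + 1)) (by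
    have e1 : Fintype.card (Fin n ⊕ Fin k) = n + k := by simp
    rw [e1, hcard]
    push_cast
    have hn : (0 : ℝ) < (n : ℝ) + 1 := by positivity
    rw [pow_add, div_mul_eq_mul_div, le_div_iff₀ hn]
    calc ((n : ℝ) + k + 1) * (C.card * 2 ^ k) * (n + 1)
        = (((n : ℝ) + 1) * C.card) * ((n + k + 1) * 2 ^ k) := by ring
      _ ≤ (c * 2 ^ n) * ((n + k + 1) * 2 ^ k) := by gcongr
      _ = c * (n + k + 1) * (2 ^ n * 2 ^ k) := by ring)
  have e1 : Fintype.card (Fin n ⊕ Fin k) = n + k := by simp
  rw [e1] at key
  exact key

/-- parity of a vector -/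
def par {n : ℕ} (x : Fin n → Bool) : Bool := decide (Odd ((univ.filter fun i => x i = true).card))

lemma par_flip {n : ℕ} (x : Fin n → Bool) (i : Fin n) : par (flip x i) = !(par x) := by
  classical
  unfold par
  have key : (univ.filter fun j => flip x i j = true) =
      if x i = true then (univ.filter fun j => x j = true).erase i
      else insert i (univ.filter fun j => x j = true) := by
    split_ifs with h
    · ext j
      by_cases hj : j = i
      · subst hj; simp [flip, h]
      · simp [flip_of_ne _ hj, hj]
    · ext j
      by_cases hj : j = i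
      · subst hj; simp [flip, h]
      · simp [flip_of_ne _ hj, hj]
  rw [key]
  split_ifs with h
  · have hm : i ∈ univ.filter fun j => x j = true := by simp [h]
    have h1 := Finset.card_erase_add_one hm
    rw [← h1]
    by_cases ho : Odd ((univ.filter fun j => x j = true).erase i).card <;>
      simp [Nat.odd_add_one, ho]
  · have hm : i ∉ univ.filter fun j => x j = true := by simp [h]
    rw [Finset.card_insert_of_notMem hm]
    by_cases ho : Odd ((univ.filter fun j => x j = true)).card <;>
      simp [Nat.odd_add_one, ho]

/-- doubling: length `n` to length `2 n + 1` -/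
lemma Good.double {n : ℕ} {c : ℝ} (h : Good n c) : Good (2 * n + 1) c := by
  classical
  obtain ⟨C, h1, h2⟩ := h
  -- coordinates (u, v, t)
  let mk : (Fin n → Bool) × (Fin n → Bool) → ((Fin n ⊕ Fin n) ⊕ Unit → Bool) := fun p j =>
    match j with
    | Sum.inl (Sum.inl i) => p.1 i
    | Sum.inl (Sum.inr i) => xor (p.1 i) (p.2 i)
    | Sum.inr _ => par p.1
  have hinj : Function.Injective mk := by
    rintro ⟨u, w⟩ ⟨u', w'⟩ h
    have hu : u = u' := by
      funext i
      exact congrFun h (Sum.inl (Sum.inl i))
    subst hu
    have hw : w = w' := by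
      funext i
      have := congrFun h (Sum.inl (Sum.inr i))
      simpa [mk] using this
    rw [hw]
  let D : Finset ((Fin n ⊕ Fin n) ⊕ Unit → Bool) :=
    ((univ : Finset (Fin n → Bool)) ×ˢ C).map ⟨mk, hinj⟩
  have hD : ∀ x, (fun i => xor (x (Sum.inl (Sum.inl i))) (x (Sum.inl (Sum.inr i)))) ∈ C →
      x (Sum.inr ()) = par (fun i => x (Sum.inl (Sum.inl i))) → x ∈ D := by
    intro x hx1 hx2
    simp only [D, Finset.mem_map, Finset.mem_product, Finset.mem_univ, true_and,
      Function.Embedding.coeFn_mk]
    refine ⟨(fun i => x (Sum.inl (Sum.inl i)), _), hx1, ?_⟩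
    funext j
    rcases j with (j | j) | j
    · rfl
    · simp only [mk]
      cases x (Sum.inl (Sum.inl j)) <;> cases x (Sum.inl (Sum.inr j)) <;> rfl
    · simp only [mk]
      rw [← hx2]
  have hcard : D.card = 2 ^ n * C.card := by
    simp [D]
  have key := good_of_type D (by
    intro x
    set u : Fin n → Bool := fun i => x (Sum.inl (Sum.inl i)) with hu
    set w : Fin n → Bool := fun i => xor (x (Sum.inl (Sum.inl i))) (x (Sum.inl (Sum.inr i))) with hw
    rcases h1 w with hwC | ⟨i, hi⟩
    · by_cases ht : x (Sum.inr ()) = par u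
      · left
        exact hD x hwC ht
      · right
        refine ⟨Sum.inr (), ?_⟩
        apply hD
        · have e : (fun i => xor (flip x (Sum.inr ()) (Sum.inl (Sum.inl i)))
              (flip x (Sum.inr ()) (Sum.inl (Sum.inr i)))) = w := by
            funext i
            rw [flip_of_ne _ (by simp), flip_of_ne _ (by simp)]
          rw [e]
          exact hwC
        · rw [flip_self]
          have e : (fun i => flip x (Sum.inr ()) (Sum.inl (Sum.inl i))) = u := by
            funext i
            rw [flip_of_ne _ (by simp)]
          rw [e]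
          revert ht
          cases x (Sum.inr ()) <;> cases par u <;> simp
    · right
      by_cases ht : x (Sum.inr ()) = par u
      · -- flip in v
        refine ⟨Sum.inl (Sum.inr i), ?_⟩
        apply hD
        · have e : (fun j => xor (flip x (Sum.inl (Sum.inr i)) (Sum.inl (Sum.inl j)))
              (flip x (Sum.inl (Sum.inr i)) (Sum.inl (Sum.inr j)))) = flip w i := by
            funext j
            by_cases hj : j = i
            · subst hj
              rw [flip_self, flip_self, flip_of_ne _ (by simp), hw]
              simp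
            · rw [flip_of_ne _ hj, flip_of_ne _ (by simp), flip_of_ne _ (by simpa using hj)]
          rw [e]
          exact hi
        · rw [flip_of_ne _ (by simp), ht]
          have e : (fun j => flip x (Sum.inl (Sum.inr i)) (Sum.inl (Sum.inl j))) = u := by
            funext j
            rw [flip_of_ne _ (by simp)]
          rw [e]
      · refine ⟨Sum.inl (Sum.inl i), ?_⟩
        apply hD
        · have e : (fun j => xor (flip x (Sum.inl (Sum.inl i)) (Sum.inl (Sum.inl j)))
              (flip x (Sum.inl (Sum.inl i)) (Sum.inl (Sum.inr j)))) = flip w i := by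
            funext j
            by_cases hj : j = i
            · subst hj
              rw [flip_self, flip_self, flip_of_ne _ (by simp), hw]
              simp
            · rw [flip_of_ne _ hj, flip_of_ne _ (by simpa using hj), flip_of_ne _ (by simp)]
          rw [e]
          exact hi
        · rw [flip_of_ne _ (by simp)]
          have e : (fun j => flip x (Sum.inl (Sum.inl i)) (Sum.inl (Sum.inl j))) = flip u i := by
            funext j
            by_cases hj : j = i
            · subst hj
              rw [flip_self, flip_self]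
            · rw [flip_of_ne _ hj, flip_of_ne _ (by simpa using hj)]
          rw [e, par_flip]
          revert ht
          cases x (Sum.inr ()) <;> cases par u <;> simp) c (by
    have e1 : Fintype.card ((Fin n ⊕ Fin n) ⊕ Unit) = 2 * n + 1 := by simp; ring
    rw [e1, hcard]
    push_cast
    calc (2 * (n : ℝ) + 1 + 1) * (2 ^ n * C.card) = (((n : ℝ) + 1) * C.card) * (2 * 2 ^ n) := by ring
      _ ≤ (c * 2 ^ n) * (2 * 2 ^ n) := by gcongr
      _ = c * 2 ^ (2 * n + 1) := by ring)
  have e1 : Fintype.card ((Fin n ⊕ Fin n) ⊕ Unit) = 2 * n + 1 := by simp; ring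
  rw [e1] at key
  exact key

lemma Good.doubles {n : ℕ} {c : ℝ} (h : Good n c) (a : ℕ) : Good (2 ^ a * (n + 1) - 1) c := by
  induction a with
  | zero => simpa using h
  | succ a ih =>
    have := ih.double
    have e : 2 * (2 ^ a * (n + 1) - 1) + 1 = 2 ^ (a + 1) * (n + 1) - 1 := by
      have : 1 ≤ 2 ^ a * (n + 1) := Nat.one_le_iff_ne_zero.mpr (by positivity)
      rw [pow_succ]
      have e2 : 2 ^ a * 2 * (n + 1) = 2 * (2 ^ a * (n + 1)) := by ring
      omega
    rwa [e] at this

end Pool.Agent.H43.Cover
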