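import Mathlib
import Pool.Agent.H43.Cover

/-!
# Covering codes of radius one from Hamming syndromes over a non-binary field
-/

set_option autoImplicit false

open Finset
open scoped LinearAlgebra.Projectivization

namespace Pool.Agent.H43.Cover

/-- index type: nonzero binary vectors -/
abbrev Ix (s : ℕ) : Type := {h : Fin s → ZMod 2 // h ≠ 0}

/-- the Hamming syndrome -/
def Hs (s : ℕ) (x : Ix s → Bool) : Fin s → ZMod 2 := ∑ j : Ix s, if x j = true then j.1 else 0

lemma add_self_z2 {s : ℕ} (v : Fin s → ZMod 2) : v + v = 0 := by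
  funext i
  simp only [Pi.add_apply, Pi.zero_apply]
  exact CharTwo.add_self_eq_zero _

lemma Hs_flip {s : ℕ} (x : Ix s → Bool) (j : Ix s) : Hs s (flip x j) = Hs s x + j.1 := by
  classical
  unfold Hs
  rw [← Finset.add_sum_erase univ _ (Finset.mem_univ j),
    ← Finset.add_sum_erase univ (fun k : Ix s => if x k = true then k.1 else 0) (Finset.mem_univ j)]
  have e : ∑ k ∈ univ.erase j, (if flip x j k = true then k.1 else 0)
      = ∑ k ∈ univ.erase j, (if x k = true then k.1 else 0) := by
    apply Finset.sum_congr rfl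
    intro k hk
    rw [flip_of_ne _ (Finset.ne_of_mem_erase hk)]
  rw [e, flip_self]
  cases hx : x j
  · simp [add_comm]
  · simp only [Bool.not_true, Bool.false_eq_true, if_false, if_true]
    rw [add_right_comm, add_self_z2]

lemma Hs_cover {s : ℕ} (x : Ix s → Bool) (v : Fin s → ZMod 2) :
    Hs s x = v ∨ ∃ j, Hs s (flip x j) = v := by
  by_cases h : Hs s x = v
  · exact Or.inl h
  · right
    have hne : v - Hs s x ≠ 0 := fun h0 => h (sub_eq_zero.1 h0).symm
    refine ⟨⟨v - Hs s x, hne⟩, ?_⟩
    rw [Hs_flip]
    simp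

lemma card_Ix (s : ℕ) : Fintype.card (Ix s) = 2 ^ s - 1 := by
  classical
  have : Fintype.card (Ix s) = Fintype.card (Fin s → ZMod 2) - 1 := by
    simp
  rw [this]
  simp [ZMod.card]

/-- The product code. -/
theorem code_exists (F : Type) [Field F] [Fintype F] (s r : ℕ)
    (hs : Fintype.card F ≤ 2 ^ s) (N : ℕ)
    (hN : N * (Fintype.card F - 1) + 1 = Fintype.card F ^ r) :
    Good (N * (2 ^ s - 1)) (((2 : ℝ) ^ s - 1) / ((Fintype.card F : ℝ) - 1)) := by
  classical
  have hq : 1 < Fintype.card F := Fintype.one_lt_card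
  let V := Fin s → ZMod 2
  have hcV : Fintype.card V = 2 ^ s := by simp [V, ZMod.card]
  obtain ⟨σ, hσ⟩ : ∃ σ : V → F, Function.Surjective σ := by
    obtain ⟨f⟩ := Function.Embedding.nonempty_of_card_le (α := F) (β := V) (by rw [hcV]; exact hs)
    exact ⟨Function.invFun f, Function.invFun_surjective f.injective⟩
  let _ : Fintype (ℙ F (Fin r → F)) := Fintype.ofFinite _
  let P := ℙ F (Fin r → F)
  have hcP : Fintype.card P = N := by
    have h1 := Projectivization.card' F (Fin r → F)
    rw [Nat.card_eq_fintype_card, Nat.card_eq_fintype_card, Nat.card_eq_fintype_card] at h1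
    have h2 : Fintype.card (Fin r → F) = Fintype.card F ^ r := by simp
    rw [h2, ← hN] at h1
    have h3 : N * (Fintype.card F - 1) = Fintype.card P * (Fintype.card F - 1) := by
      simpa using h1
    exact (Nat.eq_of_mul_eq_mul_right (by omega) h3).symm
  let J := P × Ix s
  let S : (J → Bool) → (Fin r → F) := fun x => ∑ p : P, σ (Hs s (fun j => x (p, j))) • p.rep
  have hflip : ∀ (x : J → Bool) (p : P) (j : Ix s),
      S (flip x (p, j)) = S x + (σ (Hs s (flip (fun k => x (p, k)) j))
        - σ (Hs s (fun k => x (p, k)))) • p.rep := by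
    intro x p j
    simp only [S]
    rw [← Finset.add_sum_erase univ _ (Finset.mem_univ p),
      ← Finset.add_sum_erase univ (fun p : P => σ (Hs s (fun j => x (p, j))) • p.rep)
        (Finset.mem_univ p)]
    have e : ∑ p' ∈ univ.erase p, σ (Hs s (fun k => flip x (p, j) (p', k))) • p'.rep
        = ∑ p' ∈ univ.erase p, σ (Hs s (fun k => x (p', k))) • p'.rep := by
      apply Finset.sum_congr rfl
      intro p' hp'
      have hne := Finset.ne_of_mem_erase hp'
      have : (fun k => flip x (p, j) (p', k)) = fun k => x (p', k) := by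
        funext k
        rw [flip_of_ne]
        intro h
        exact hne (Prod.ext_iff.1 h).1
      rw [this]
    have e2 : (fun k => flip x (p, j) (p, k)) = flip (fun k => x (p, k)) j := by
      funext k
      by_cases hk : k = j
      · subst hk
        rw [flip_self, flip_self]
      · rw [flip_of_ne _ hk, flip_of_ne]
        intro h
        exact hk (Prod.ext_iff.1 h).2
    rw [e, e2, sub_smul]
    abel
  -- every syndrome class is a covering code
  have hcov : ∀ g : Fin r → F, Covers {x : J → Bool | S x = g} := by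
    intro g x
    by_cases hx : S x = g
    · exact Or.inl hx
    · right
      have hne : g - S x ≠ 0 := fun h0 => hx (sub_eq_zero.1 h0).symm
      let p : P := Projectivization.mk F (g - S x) hne
      obtain ⟨a, ha⟩ := Projectivization.exists_smul_eq_mk_rep F (g - S x) hne
      -- a • (g - S x) = p.rep
      have hp : g - S x = ((a : F)⁻¹) • p.rep := by
        rw [← ha]
        rw [Units.smul_def, smul_smul, inv_mul_cancel₀ a.ne_zero, one_smul]
      obtain ⟨v, hv⟩ := hσ (σ (Hs s (fun k => x (p, k))) + (a : F)⁻¹)
      rcases Hs_cover (fun k => x (p, k)) v with h | ⟨j, hj⟩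
      · exfalso
        rw [← h] at hv
        have : (a : F)⁻¹ = 0 := by
          have := hv
          exact (left_eq_add.1 this)
        exact (inv_ne_zero a.ne_zero) this
      · refine ⟨(p, j), ?_⟩
        show S (flip x (p, j)) = g
        rw [hflip, hj, hv, add_sub_cancel_left, ← hp]
        abel
  -- pigeonhole
  obtain ⟨g, hg⟩ : ∃ g : Fin r → F,
      (univ.filter fun x : J → Bool => S x = g).card * Fintype.card F ^ r
        ≤ 2 ^ Fintype.card J := by
    by_contra hcon
    push Not at hcon
    have h1 : ∑ g : Fin r → F, (univ.filter fun x : J → Bool => S x = g).card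
        = 2 ^ Fintype.card J := by
      have := Finset.card_eq_sum_card_fiberwise (f := S) (s := (univ : Finset (J → Bool)))
        (t := univ) (fun x _ => by simp)
      rw [← this]
      simp
    have h2 : ∑ g : Fin r → F, 2 ^ Fintype.card J <
        ∑ g : Fin r → F, (univ.filter fun x : J → Bool => S x = g).card * Fintype.card F ^ r :=
      Finset.sum_lt_sum_of_nonempty ⟨0, Finset.mem_univ _⟩ (fun g _ => hcon g)
    rw [← Finset.sum_mul, h1] at h2
    simp only [Finset.sum_const, Finset.card_univ, Fintype.card_pi, Finset.prod_const,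
      Fintype.card_fin, smul_eq_mul] at h2
    rw [mul_comm] at h2
    exact lt_irrefl _ h2
  have hcJ : Fintype.card J = N * (2 ^ s - 1) := by
    simp only [J, Fintype.card_prod]
    rw [hcP, card_Ix]
  have key := good_of_type (univ.filter fun x : J → Bool => S x = g) (by
    intro x
    rcases hcov g x with h | ⟨i, hi⟩
    · left; simpa using h
    · right; exact ⟨i, by simpa using hi⟩)
    (((2 : ℝ) ^ s - 1) / ((Fintype.card F : ℝ) - 1)) (by
      have hq' : (0 : ℝ) < (Fintype.card F : ℝ) - 1 := by
        have : (1 : ℝ) < Fintype.card F := by exact_mod_cast hq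
        linarith
      rw [div_mul_eq_mul_div, le_div_iff₀ hq']
      have hg' : ((univ.filter fun x : J → Bool => S x = g).card : ℝ) * (Fintype.card F : ℝ) ^ r
          ≤ 2 ^ Fintype.card J := by exact_mod_cast hg
      have hN' : (N : ℝ) * ((Fintype.card F : ℝ) - 1) + 1 = (Fintype.card F : ℝ) ^ r := by
        have := congrArg (fun n : ℕ => (n : ℝ)) hN
        simp only [Nat.cast_add, Nat.cast_mul, Nat.cast_one, Nat.cast_pow] at this
        rwa [Nat.cast_sub hq.le, Nat.cast_one] at this
      have hJ' : (Fintype.card J : ℝ) = N * ((2 : ℝ) ^ s - 1) := by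
        rw [hcJ, Nat.cast_mul, Nat.cast_sub (Nat.one_le_two_pow)]
        push_cast
        ring
      have hqs : (Fintype.card F : ℝ) ≤ 2 ^ s := by exact_mod_cast hs
      have h1 : ((Fintype.card J : ℝ) + 1) * ((Fintype.card F : ℝ) - 1)
          ≤ ((2 : ℝ) ^ s - 1) * (Fintype.card F : ℝ) ^ r := by
        rw [hJ', ← hN']
        nlinarith
      have h2s : (0 : ℝ) ≤ (2 : ℝ) ^ s - 1 := by
        have : (1 : ℝ) ≤ 2 ^ s := one_le_pow₀ (by norm_num)
        linarith
      calc ((Fintype.card J : ℝ) + 1) * ((univ.filter fun x : J → Bool => S x = g).card : ℝ)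
            * ((Fintype.card F : ℝ) - 1)
          = ((univ.filter fun x : J → Bool => S x = g).card : ℝ) *
            (((Fintype.card J : ℝ) + 1) * ((Fintype.card F : ℝ) - 1)) := by ring
        _ ≤ ((univ.filter fun x : J → Bool => S x = g).card : ℝ) *
            (((2 : ℝ) ^ s - 1) * (Fintype.card F : ℝ) ^ r) := by gcongr
        _ = ((2 : ℝ) ^ s - 1) * (((univ.filter fun x : J → Bool => S x = g).card : ℝ) *
            (Fintype.card F : ℝ) ^ r) := by ring
        _ ≤ ((2 : ℝ) ^ s - 1) * 2 ^ Fintype.card J := by gcongr)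
  rw [hcJ] at key
  exact key

end Pool.Agent.H43.Cover
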