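import Mathlib
import Pool.Agent.H43.Code

/-!
# Asymptotically perfect covering codes of radius one for all lengths
-/

set_option autoImplicit false

open Finset

namespace Pool.Agent.H43.Cover

/-- powers of two slightly above powers of three -/
lemma two_three (δ : ℝ) (hδ : 0 < δ) : ∃ s b : ℕ, 1 ≤ b ∧ 3 ^ b < 2 ^ s ∧
    (2 : ℝ) ^ s ≤ (1 + δ) * 3 ^ b := by
  have hl2 : 0 < Real.log 2 := Real.log_pos (by norm_num)
  have hl3 : 0 < Real.log 3 := Real.log_pos (by norm_num)
  have hlδ : 0 < Real.log (1 + δ) := Real.log_pos (by linarith)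
  -- reduce to logarithms
  suffices h : ∃ s b : ℕ, 1 ≤ b ∧ 0 < (s : ℝ) * Real.log 2 - b * Real.log 3 ∧
      (s : ℝ) * Real.log 2 - b * Real.log 3 ≤ Real.log (1 + δ) by
    obtain ⟨s, b, hb, h1, h2⟩ := h
    refine ⟨s, b, hb, ?_, ?_⟩
    · have : (3 : ℝ) ^ b < 2 ^ s := by
        rw [← Real.log_lt_log_iff (by positivity) (by positivity), Real.log_pow, Real.log_pow]
        linarith
      exact_mod_cast this
    · rw [← Real.log_le_log_iff (by positivity) (by positivity), Real.log_pow,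
        Real.log_mul (by positivity) (by positivity), Real.log_pow]
      linarith
  obtain ⟨n, hn⟩ := exists_nat_gt (Real.log 2 / Real.log (1 + δ))
  have hn0 : 0 < n + 1 := Nat.succ_pos n
  obtain ⟨j, k, hk0, hkn, hjk⟩ := Real.exists_int_int_abs_mul_sub_le (Real.log 3 / Real.log 2) hn0
  -- bound in terms of logs
  have hη : Real.log 2 / ((n : ℝ) + 1) < Real.log (1 + δ) ∧ Real.log 2 / ((n : ℝ) + 1 + 1) < Real.log 2 := by
    constructor
    · rw [div_lt_iff₀ hlδ] at hn
      rw [div_lt_iff₀ (by positivity)]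
      nlinarith
    · rw [div_lt_iff₀ (by positivity)]
      nlinarith
  have hab : |(k : ℝ) * Real.log 3 - j * Real.log 2| ≤ Real.log 2 / ((n : ℝ) + 1 + 1) := by
    have e : (k : ℝ) * Real.log 3 - j * Real.log 2
        = Real.log 2 * ((k : ℝ) * (Real.log 3 / Real.log 2) - j) := by
      field_simp
    rw [e, abs_mul, abs_of_pos hl2]
    have := mul_le_mul_of_nonneg_left hjk hl2.le
    push_cast at this
    calc _ ≤ _ := this
      _ = _ := by ring
  have hηδ : Real.log 2 / ((n : ℝ) + 1 + 1) ≤ Real.log (1 + δ) := by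
    refine le_trans ?_ hη.1.le
    apply div_le_div_of_nonneg_left hl2.le (by positivity) (by linarith)
  set α : ℝ := (k : ℝ) * Real.log 3 - j * Real.log 2 with hα
  -- positivity of j and k
  have hk1 : (1 : ℝ) ≤ k := by exact_mod_cast hk0
  have hj0 : 0 < j := by
    by_contra hj
    push Not at hj
    have hj' : (j : ℝ) ≤ 0 := by exact_mod_cast hj
    have h1 : Real.log 3 ≤ α := by
      rw [hα]
      nlinarith
    have h2 : Real.log 2 < Real.log 3 := Real.log_lt_log (by norm_num) (by norm_num)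
    have h3 := (le_abs_self α).trans hab
    linarith [hη.2]
  obtain ⟨J, rfl⟩ := Int.eq_ofNat_of_zero_le hj0.le
  obtain ⟨K, rfl⟩ := Int.eq_ofNat_of_zero_le hk0.le
  simp only [Int.cast_natCast] at *
  have hK0 : 1 ≤ K := by exact_mod_cast hk0
  have hα0 : α ≠ 0 := by
    intro h0
    have h1 : (K : ℝ) * Real.log 3 = J * Real.log 2 := by linarith
    rw [← Real.log_pow, ← Real.log_pow] at h1
    have h2 := Real.log_injOn_pos (Set.mem_Ioi.2 (by positivity)) (Set.mem_Ioi.2 (by positivity)) h1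
    have h3 : 3 ^ K = 2 ^ J := by exact_mod_cast h2
    have h4 : Odd (3 ^ K) := Odd.pow (by decide)
    rw [h3] at h4
    have hJ0 : J ≠ 0 := by
      have : 0 < J := by exact_mod_cast hj0
      omega
    exact (Nat.not_odd_iff_even.2 ((Nat.even_pow.2 ⟨even_two, hJ0⟩))) h4
  rcases lt_or_gt_of_ne hα0 with hneg | hpos
  · refine ⟨J, K, hK0, by linarith, ?_⟩
    have := (neg_abs_le α)
    linarith
  · -- use t with t α < log 2 ≤ (t + 1) α
    obtain ⟨t, ht1, ht2⟩ : ∃ t : ℕ, (t : ℝ) * α < Real.log 2 ∧ Real.log 2 ≤ ((t : ℝ) + 1) * α := by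
      have hex : ∃ t : ℕ, Real.log 2 ≤ ((t : ℝ) + 1) * α := by
        obtain ⟨t, ht⟩ := exists_nat_gt (Real.log 2 / α)
        rw [div_lt_iff₀ hpos] at ht
        exact ⟨t, by nlinarith⟩
      classical
      refine ⟨Nat.find hex, ?_, Nat.find_spec hex⟩
      rcases Nat.eq_zero_or_pos (Nat.find hex) with h0 | h0
      · rw [h0]; simpa using hl2
      · have := Nat.find_min hex (m := Nat.find hex - 1) (by omega)
        push Not at this
        have e : ((Nat.find hex - 1 : ℕ) : ℝ) + 1 = (Nat.find hex : ℝ) := by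
          rw [Nat.cast_sub h0]; simp
        rwa [e] at this
    have hαη := (le_abs_self α).trans hab
    have ht0 : 1 ≤ t := by
      by_contra h
      have : t = 0 := by omega
      subst this
      simp at ht2
      linarith [hη.2]
    refine ⟨t * J + 1, t * K, Nat.one_le_iff_ne_zero.2 (by positivity), ?_, ?_⟩
    · push_cast
      have : ((t : ℝ) * J + 1) * Real.log 2 - t * K * Real.log 3 = Real.log 2 - t * α := by
        rw [hα]; ring
      rw [this]; linarith
    · push_cast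
      have : ((t : ℝ) * J + 1) * Real.log 2 - t * K * Real.log 3 = Real.log 2 - t * α := by
        rw [hα]; ring
      rw [this]
      nlinarith

/-- the lengths plus one -/
def U (q Q : ℕ) : ℕ → ℕ
  | 0 => 1
  | r + 1 => q * U q Q r + (Q - q)

/-- the number of points of projective space -/
def Np (q : ℕ) : ℕ → ℕ
  | 0 => 0
  | r + 1 => q * Np q r + 1

lemma Np_spec (q : ℕ) (hq : 1 ≤ q) (r : ℕ) : Np q r * (q - 1) + 1 = q ^ r := by
  induction r with
  | zero => simp [Np]
  | succ r ih =>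
    obtain ⟨p, rfl⟩ : ∃ p, q = p + 1 := ⟨q - 1, by omega⟩
    simp only [Np, Nat.add_sub_cancel] at *
    calc ((p + 1) * Np (p + 1) r + 1) * p + 1 = (p + 1) * (Np (p + 1) r * p + 1) := by ring
      _ = (p + 1) ^ (r + 1) := by rw [ih]; ring

lemma U_eq (q Q : ℕ) (hQ : q ≤ Q) (hq : 1 ≤ q) (r : ℕ) : U q Q r = Np q r * (Q - 1) + 1 := by
  induction r with
  | zero => simp [U, Np]
  | succ r ih =>
    simp only [U, Np, ih]
    obtain ⟨p, rfl⟩ : ∃ p, q = p + 1 := ⟨q - 1, by omega⟩
    obtain ⟨d, rfl⟩ : ∃ d, Q = p + 1 + d := ⟨Q - (p + 1), by omega⟩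
    have e1 : p + 1 + d - 1 = p + d := by omega
    have e2 : p + 1 + d - (p + 1) = d := by omega
    rw [e1, e2]
    ring

/-- For every `ε > 0` and all large `n` there is a covering code of length `n`, radius one and
density at most `1 + ε`. -/
theorem good_all (ε : ℝ) (hε : 0 < ε) : ∃ n₀ : ℕ, ∀ n ≥ n₀, Good n (1 + ε) := by
  -- choose δ
  obtain ⟨δ, hδ0, hδ⟩ : ∃ δ : ℝ, 0 < δ ∧ (1 + 2 * δ) * (1 + δ) ≤ 1 + ε := by
    refine ⟨min 1 (ε / 5), by positivity, ?_⟩
    have h1 : min 1 (ε / 5) ≤ 1 := min_le_left _ _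
    have h2 : min 1 (ε / 5) ≤ ε / 5 := min_le_right _ _
    have h3 : 0 < min 1 (ε / 5) := by positivity
    nlinarith
  obtain ⟨s, b, hb, hlt, hle⟩ := two_three δ hδ0
  set q : ℕ := 3 ^ b with hq
  set Q : ℕ := 2 ^ s with hQ
  have hq3 : 3 ≤ q := by
    rw [hq]
    calc 3 = 3 ^ 1 := by norm_num
      _ ≤ 3 ^ b := Nat.pow_le_pow_right (by norm_num) hb
  have hqR : (3 : ℝ) ≤ q := by exact_mod_cast hq3
  have hqQ : (q : ℝ) < Q := by exact_mod_cast hlt
  have hQle : (Q : ℝ) ≤ (1 + δ) * q := by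
    rw [hQ, hq]; push_cast; exact hle
  have hs0 : 1 ≤ s := by
    by_contra h
    have : s = 0 := by omega
    rw [this] at hQ
    omega
  -- the field
  have : Fact (Nat.Prime 3) := ⟨Nat.prime_three⟩
  let _ : Fintype (GaloisField 3 b) := Fintype.ofFinite _
  have hcF : Fintype.card (GaloisField 3 b) = q := by
    rw [← Nat.card_eq_fintype_card, GaloisField.card 3 b (by omega)]
  set c : ℝ := ((Q : ℝ) - 1) / ((q : ℝ) - 1) with hc
  have hcle : c ≤ 1 + 2 * δ := by
    rw [hc, div_le_iff₀ (by linarith)]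
    nlinarith
  have hc0 : 0 ≤ c := by
    rw [hc]
    apply div_nonneg <;> linarith
  have hgood : ∀ r, Good (U q Q r - 1) c := by
    intro r
    have := code_exists (GaloisField 3 b) s r (by rw [hcF]; exact hlt.le) (Np q r)
      (by rw [hcF]; exact Np_spec q (by omega) r)
    rw [hcF] at this
    have e : U q Q r - 1 = Np q r * (2 ^ s - 1) := by
      rw [U_eq q Q hlt.le (by omega)]; rfl
    rw [e, hc, hQ]
    push_cast
    exact this
  have hUpos : ∀ r, 1 ≤ U q Q r := by
    intro r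
    rw [U_eq q Q hlt.le (by omega)]
    omega
  have hgood2 : ∀ a r, Good (2 ^ a * U q Q r - 1) c := by
    intro a r
    have := (hgood r).doubles a
    rwa [Nat.sub_add_cancel (hUpos r)] at this
  -- the ratios
  set v : ℕ → ℝ := fun r => (U q Q r : ℝ) / (Q : ℝ) ^ r with hv
  have hQpos : (0 : ℝ) < Q := by linarith
  have hv0 : v 0 = 1 := by simp [hv, U]
  have hvstep : ∀ r, (q : ℝ) / Q * v r ≤ v (r + 1) := by
    intro r
    simp only [hv, U]
    rw [div_mul_div_comm, pow_succ', div_le_div_iff_of_pos_right (by positivity)]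
    push_cast
    have : (0 : ℝ) ≤ ((Q - q : ℕ) : ℝ) := by positivity
    linarith
  have hvlim : ∃ r, v r ≤ 1 / 2 := by
    -- U r ≤ c * q ^ r
    have hU : ∀ r, (U q Q r : ℝ) ≤ c * (q : ℝ) ^ r := by
      intro r
      have h1 := Np_spec q (by omega) r
      have h2 := U_eq q Q hlt.le (by omega) r
      have h1' : (Np q r : ℝ) * ((q : ℝ) - 1) + 1 = (q : ℝ) ^ r := by
        have := congrArg (fun n : ℕ => (n : ℝ)) h1
        simp only [Nat.cast_add, Nat.cast_mul, Nat.cast_one, Nat.cast_pow] at this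
        rwa [Nat.cast_sub (by omega), Nat.cast_one] at this
      have h2' : (U q Q r : ℝ) = Np q r * ((Q : ℝ) - 1) + 1 := by
        rw [h2]
        push_cast [Nat.cast_sub (show 1 ≤ Q by omega)]
        ring
      rw [h2', ← h1', hc, div_mul_eq_mul_div, le_div_iff₀ (by linarith)]
      nlinarith
    have hratio : (q : ℝ) / Q < 1 := by rw [div_lt_one hQpos]; exact hqQ
    obtain ⟨r, hr⟩ := exists_pow_lt_of_lt_one (show (0 : ℝ) < 1 / (2 * (c + 1)) by positivity) hratio
    refine ⟨r, ?_⟩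
    have h3 : v r ≤ c * ((q : ℝ) / Q) ^ r := by
      simp only [hv]
      rw [div_pow, ← mul_div_assoc]
      gcongr
      exact hU r
    refine h3.trans ?_
    have h4 : c * ((q : ℝ) / Q) ^ r ≤ c * (1 / (2 * (c + 1))) := by gcongr
    refine h4.trans ?_
    rw [mul_one_div, div_le_div_iff₀ (by positivity) (by norm_num)]
    linarith
  obtain ⟨r₀, hr₀⟩ := hvlim
  refine ⟨2 ^ (s * r₀), fun n hn => ?_⟩
  -- dyadic size
  set A := Nat.log 2 (n + 1) with hA
  have hA1 : 2 ^ A ≤ n + 1 := Nat.pow_log_le_self 2 (by omega)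
  have hA2 : n + 1 < 2 ^ (A + 1) := Nat.lt_pow_succ_log_self (by norm_num) (n + 1)
  have hAr : s * r₀ ≤ A := by
    rw [hA]
    exact Nat.le_log_of_pow_le (by norm_num) (by omega)
  set y : ℝ := ((n : ℝ) + 1) / 2 ^ (A + 1) with hy
  have hy1 : 1 / 2 ≤ y := by
    rw [hy, pow_succ, le_div_iff₀ (by positivity)]
    have : (2 : ℝ) ^ A ≤ n + 1 := by exact_mod_cast hA1
    linarith
  have hy2 : y < 1 := by
    rw [hy, div_lt_one (by positivity)]
    exact_mod_cast hA2
  have hex : ∃ r, v r ≤ y := ⟨r₀, hr₀.trans hy1⟩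
  classical
  set r := Nat.find hex with hr
  have hr1 : v r ≤ y := Nat.find_spec hex
  have hrr₀ : r ≤ r₀ := Nat.find_min' hex (hr₀.trans hy1)
  have hrpos : 0 < r := by
    rcases Nat.eq_zero_or_pos r with h | h
    · rw [h, hv0] at hr1
      linarith
    · exact h
  have hr2 : y < v (r - 1) := by
    have := Nat.find_min hex (m := r - 1) (by omega)
    push Not at this
    exact this
  have hr3 : (q : ℝ) / Q * y < v r := by
    have := hvstep (r - 1)
    rw [Nat.sub_add_cancel hrpos] at this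
    refine lt_of_lt_of_le ?_ this
    apply mul_lt_mul_of_pos_left hr2
    positivity
  have hsr : s * r ≤ A := (Nat.mul_le_mul_left s hrr₀).trans hAr
  set a := A + 1 - s * r with ha
  have hpow : (2 : ℝ) ^ a * U q Q r = 2 ^ (A + 1) * v r := by
    simp only [hv]
    have e : (2 : ℝ) ^ (A + 1) = 2 ^ a * (Q : ℝ) ^ r := by
      rw [hQ]
      push_cast
      rw [← pow_mul, ← pow_add]
      congr 1
      omega
    rw [e]
    have : (Q : ℝ) ^ r ≠ 0 := by positivity
    field_simp
  have hle1 : (2 : ℝ) ^ a * U q Q r ≤ n + 1 := by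
    rw [hpow]
    have : (n : ℝ) + 1 = 2 ^ (A + 1) * y := by
      rw [hy]; field_simp
    rw [this]
    gcongr
  have hlt1 : (n : ℝ) + 1 < (Q : ℝ) / q * (2 ^ a * U q Q r) := by
    rw [hpow]
    have e : (n : ℝ) + 1 = 2 ^ (A + 1) * y := by
      rw [hy]; field_simp
    rw [e]
    have hqpos : (0 : ℝ) < q := by linarith
    have h5 : y < (Q : ℝ) / q * v r := by
      have h6 := mul_lt_mul_of_pos_left hr3 (show (0 : ℝ) < (Q : ℝ) / q by positivity)
      have h7 : (Q : ℝ) / q * ((q : ℝ) / Q * y) = y := by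
        field_simp
      rwa [h7] at h6
    have h2A : (0 : ℝ) < 2 ^ (A + 1) := by positivity
    nlinarith [mul_lt_mul_of_pos_left h5 h2A]
  -- extend
  set m := 2 ^ a * U q Q r with hm
  have hm1 : 1 ≤ m := Nat.one_le_iff_ne_zero.2 (by
    have := hUpos r
    rw [hm]; positivity)
  have hmn : m ≤ n + 1 := by
    have : ((2 ^ a * U q Q r : ℕ) : ℝ) ≤ ((n + 1 : ℕ) : ℝ) := by
      push_cast; exact hle1
    exact_mod_cast this
  have hG := (hgood2 a r).extend (n - (m - 1))
  rw [← hm] at hG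
  have e1 : m - 1 + (n - (m - 1)) = n := by omega
  rw [e1] at hG
  refine hG.mono ?_
  have e2 : ((m - 1 : ℕ) : ℝ) + 1 = m := by
    rw [Nat.cast_sub hm1]; simp
  have e3 : ((m - 1 : ℕ) : ℝ) + ((n - (m - 1) : ℕ) : ℝ) = n := by
    rw [← Nat.cast_add, e1]
  rw [e2, e3]
  have hmR : (m : ℝ) = 2 ^ a * U q Q r := by rw [hm]; push_cast; ring
  have hmpos : (0 : ℝ) < m := by
    have : (1 : ℝ) ≤ m := by exact_mod_cast hm1
    linarith
  rw [← hmR] at hlt1
  have h8 : ((n : ℝ) + 1) / m ≤ 1 + δ := by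
    rw [div_le_iff₀ hmpos]
    have : (Q : ℝ) / q ≤ 1 + δ := by
      rw [div_le_iff₀ (by linarith)]
      exact hQle
    nlinarith
  calc c * ((n : ℝ) + 1) / m = c * (((n : ℝ) + 1) / m) := by rw [mul_div_assoc]
    _ ≤ (1 + 2 * δ) * (1 + δ) := by
        apply mul_le_mul hcle h8 (by positivity) (by linarith)
    _ ≤ 1 + ε := hδ

end Pool.Agent.H43.Cover
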